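import Pool.Agent.Y328.RSZ.SelA
import Pool.Agent.Helper923.HMertens

/-! # Project RSZ, task SEL, part 2: the lower bound for the Selberg sum -/

set_option autoImplicit false

namespace Pool.Agent.Y328.RSZ

open Finset
open Pool.Agent.Helper923.PPS
open Pool.Agent.Y677.RSZ

/-- the power function -/
noncomputable def pw (ε : ℝ) (hε : 0 < ε) : ArithmeticFunction ℝ :=
  ⟨fun n => (n : ℝ) ^ ε, by simp [Real.zero_rpow hε.ne']⟩

theorem pw_mult (ε : ℝ) (hε : 0 < ε) : (pw ε hε).IsMultiplicative := by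
  refine ⟨?_, fun {m n} _ => ?_⟩
  · show ((1 : ℕ) : ℝ) ^ ε = 1
    simp
  · show ((m * n : ℕ) : ℝ) ^ ε = (m : ℝ) ^ ε * (n : ℝ) ^ ε
    rw [Nat.cast_mul, Real.mul_rpow (Nat.cast_nonneg _) (Nat.cast_nonneg _)]

section

variable {g : ℕ} {r : ℕ → ℕ} {z R : ℕ} (hz : 2 * g + 2 ≤ z) (hr : ∀ p : ℕ, p.Prime → r p ≤ g)

include hz hr

theorem term_eq {p : ℕ} (hp : p ∈ PP r z R) :
    (sv g r z R hz hr).selbergTerms p = (1 - (r p : ℝ) / p)⁻¹ - 1 := by
  rw [← sv_terms hz hr hp]
  ring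

theorem den_pos {p : ℕ} (hp : p ∈ PP r z R) : 0 < 1 - (r p : ℝ) / p := by
  have hpp := PP_prime r z R p hp
  unfold PP at hp
  rw [mem_filter, mem_Ioc] at hp
  have h1 : (0 : ℝ) < p := by exact_mod_cast hpp.pos
  have h2 : (r p : ℝ) < p := by
    have := hr p hpp
    exact_mod_cast (by omega : r p < p)
  have : (r p : ℝ) / p < 1 := (div_lt_one h1).2 h2
  linarith

theorem term_nonneg {p : ℕ} (hp : p ∈ PP r z R) : 0 ≤ (1 - (r p : ℝ) / p)⁻¹ - 1 := by
  have h := den_pos hz hr hp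
  have h2 : 0 ≤ (r p : ℝ) / p := by positivity
  have h3 : 1 ≤ (1 - (r p : ℝ) / p)⁻¹ := by
    rw [one_le_inv₀ h]
    linarith
  linarith

theorem term_le {p : ℕ} (hp : p ∈ PP r z R) : (1 - (r p : ℝ) / p)⁻¹ - 1 ≤ 2 * g / p := by
  have h0 := den_pos hz hr hp
  have hpp := PP_prime r z R p hp
  unfold PP at hp
  rw [mem_filter, mem_Ioc] at hp
  have h1 : (0 : ℝ) < p := by exact_mod_cast hpp.pos
  have h2 : (r p : ℝ) ≤ g := by exact_mod_cast hr p hpp
  have h3 : 2 * (g : ℝ) ≤ p := by exact_mod_cast (by omega : 2 * g ≤ p)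
  have h4 : (1 - (r p : ℝ) / p)⁻¹ - 1 = (r p : ℝ) / (p - r p) := by
    have h5 : (p : ℝ) - r p ≠ 0 := by
      intro h
      have : 1 - (r p : ℝ) / p = 0 := by
        have h6 : 1 - (r p : ℝ) / p = (p - r p) / p := by field_simp
        rw [h6, h, zero_div]
      linarith
    have h6 : 1 - (r p : ℝ) / p = (p - r p) / p := by field_simp
    rw [h6, inv_div]
    field_simp
    ring
  rw [h4]
  have h7 : 0 < (p : ℝ) - r p := by
    have h6 : 1 - (r p : ℝ) / p = (p - r p) / p := by field_simp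
    rw [h6] at h0
    exact (div_pos_iff_of_pos_right h1).1 h0
  rw [div_le_div_iff₀ h7 h1]
  have h8 : (0 : ℝ) ≤ g := Nat.cast_nonneg _
  have h9 : (0 : ℝ) ≤ r p := Nat.cast_nonneg _
  nlinarith

theorem rankin {y : ℕ} (hy : y ≤ R) (hR : 1 ≤ R) {ε : ℝ} (hε : 0 < ε) :
    ∑ l ∈ (Nat.divisors (∏ p ∈ PP r z y, p)).filter (fun l : ℕ => ¬ (l : ℝ) ≤ R),
      (sv g r z R hz hr).selbergTerms l ≤
      (R : ℝ) ^ (-ε) * ∏ p ∈ PP r z y, (1 + ((1 - (r p : ℝ) / p)⁻¹ - 1) * (p : ℝ) ^ ε) := by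
  classical
  have hR0 : (0 : ℝ) < R := by exact_mod_cast hR
  have hpos : ∀ l ∈ Nat.divisors (∏ p ∈ PP r z y, p), 0 ≤ (sv g r z R hz hr).selbergTerms l := by
    intro l hl
    refine (BoundingSieve.selbergTerms_pos (s := sv g r z R hz hr) ?_).le
    exact (Nat.mem_divisors.1 hl).1.trans (prod_dvd_prod_of_subset _ _ _ (PP_sub hy))
  have h := ((BoundingSieve.selbergTerms_isMultiplicative (s := sv g r z R hz hr)).pmul
    (pw_mult ε hε)).prodPrimeFactors_one_add_of_squarefree (sqf _ (PP_prime r z y))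
  rw [Nat.primeFactors_prod (PP_prime r z y)] at h
  have e1 : ∏ p ∈ PP r z y, (1 + ((sv g r z R hz hr).selbergTerms.pmul (pw ε hε)) p) =
      ∏ p ∈ PP r z y, (1 + ((1 - (r p : ℝ) / p)⁻¹ - 1) * (p : ℝ) ^ ε) := by
    refine prod_congr rfl fun p hp => ?_
    rw [ArithmeticFunction.pmul_apply, term_eq hz hr (PP_sub hy hp)]
    rfl
  rw [e1] at h
  rw [h, mul_sum]
  calc ∑ l ∈ (Nat.divisors (∏ p ∈ PP r z y, p)).filter (fun l : ℕ => ¬ (l : ℝ) ≤ R),
      (sv g r z R hz hr).selbergTerms l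
      ≤ ∑ l ∈ (Nat.divisors (∏ p ∈ PP r z y, p)).filter (fun l : ℕ => ¬ (l : ℝ) ≤ R),
        (R : ℝ) ^ (-ε) * ((sv g r z R hz hr).selbergTerms.pmul (pw ε hε)) l := by
        refine sum_le_sum fun l hl => ?_
        rw [mem_filter, not_le] at hl
        have h1 := hpos l hl.1
        rw [ArithmeticFunction.pmul_apply]
        have h2 : (pw ε hε) l = (l : ℝ) ^ ε := rfl
        rw [h2]
        have h3 : 1 ≤ (R : ℝ) ^ (-ε) * (l : ℝ) ^ ε := by
          rw [Real.rpow_neg hR0.le, inv_mul_eq_div, one_le_div (Real.rpow_pos_of_pos hR0 _)]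
          exact Real.rpow_le_rpow hR0.le hl.2.le hε.le
        nlinarith
    _ ≤ ∑ l ∈ Nat.divisors (∏ p ∈ PP r z y, p),
        (R : ℝ) ^ (-ε) * ((sv g r z R hz hr).selbergTerms.pmul (pw ε hε)) l := by
        refine sum_le_sum_of_subset_of_nonneg (filter_subset _ _) fun l hl _ => ?_
        have h1 := hpos l hl
        rw [ArithmeticFunction.pmul_apply]
        have h2 : (pw ε hε) l = (l : ℝ) ^ ε := rfl
        rw [h2]
        positivity

theorem selS_ge {y : ℕ} (hy : y ≤ R) (hR : 1 ≤ R) {ε : ℝ} (hε : 0 < ε) :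
    ∏ p ∈ PP r z y, (1 - (r p : ℝ) / p)⁻¹ -
      (R : ℝ) ^ (-ε) * ∏ p ∈ PP r z y, (1 + ((1 - (r p : ℝ) / p)⁻¹ - 1) * (p : ℝ) ^ ε) ≤
    selS (sv g r z R hz hr) R := by
  classical
  have h1 := rankin hz hr hy hR hε
  have h2 := sum_terms hz hr hy
  have h3 := sum_filter_add_sum_filter_not (Nat.divisors (∏ p ∈ PP r z y, p))
    (fun l : ℕ => (l : ℝ) ≤ R) (fun l => (sv g r z R hz hr).selbergTerms l)
  have h4 : ∑ l ∈ (Nat.divisors (∏ p ∈ PP r z y, p)).filter (fun l : ℕ => (l : ℝ) ≤ R),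
      (sv g r z R hz hr).selbergTerms l ≤ selS (sv g r z R hz hr) R := by
    unfold selS
    refine sum_le_sum_of_subset_of_nonneg ?_ ?_
    · intro l hl
      rw [mem_filter, Nat.mem_divisors] at hl ⊢
      refine ⟨⟨hl.1.1.trans (prod_dvd_prod_of_subset _ _ _ (PP_sub hy)), ?_⟩, hl.2⟩
      exact (sqf _ (PP_prime r z R)).ne_zero
    · intro l hl _
      rw [mem_filter, Nat.mem_divisors] at hl
      exact (BoundingSieve.selbergTerms_pos (s := sv g r z R hz hr) hl.1.1).le
  linarith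

theorem one_le_selS (hR : 1 ≤ R) : 1 ≤ selS (sv g r z R hz hr) R := by
  classical
  unfold selS
  have h1 : 1 ∈ (Nat.divisors (sv g r z R hz hr).prodPrimes).filter (fun l : ℕ => (l : ℝ) ≤ R) := by
    rw [mem_filter, Nat.mem_divisors]
    refine ⟨⟨one_dvd _, (sqf _ (PP_prime r z R)).ne_zero⟩, ?_⟩
    exact_mod_cast hR
  have h2 := single_le_sum (f := fun l => (sv g r z R hz hr).selbergTerms l) (fun l hl => by
    rw [mem_filter, Nat.mem_divisors] at hl
    exact (BoundingSieve.selbergTerms_pos (s := sv g r z R hz hr) hl.1.1).le) h1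
  have h3 : (sv g r z R hz hr).selbergTerms 1 = 1 :=
    BoundingSieve.selbergTerms_isMultiplicative.map_one
  rw [h3] at h2
  exact h2

end

/-- the ratio of the shifted product and the product -/
theorem shift_le (g : ℕ) : ∃ K : ℝ, 0 ≤ K ∧ ∀ (r : ℕ → ℕ) (z y : ℕ), 2 * g + 2 ≤ z → 2 ≤ y →
    (∀ p : ℕ, p.Prime → r p ≤ g) →
    ∏ p ∈ PP r z y, (1 + ((1 - (r p : ℝ) / p)⁻¹ - 1) * (p : ℝ) ^ (1 / Real.log y)) ≤
      Real.exp K * ∏ p ∈ PP r z y, (1 - (r p : ℝ) / p)⁻¹ := by
  obtain ⟨C, hC⟩ := Pool.Agent.Helper923.HMertens.mertens_log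
  have hC0 : 0 ≤ C := (abs_nonneg _).trans (hC 1 le_rfl)
  have hl2 : (0 : ℝ) < Real.log 2 := Real.log_pos (by norm_num)
  refine ⟨4 * g * (1 + C / Real.log 2), by positivity, fun r z y hz hy hr => ?_⟩
  have hly : 0 < Real.log y := Real.log_pos (by exact_mod_cast (by omega : 1 < y))
  have hl2y : Real.log 2 ≤ Real.log y := Real.log_le_log (by norm_num) (by exact_mod_cast hy)
  have hpt : ∀ p ∈ PP r z y, 1 + ((1 - (r p : ℝ) / p)⁻¹ - 1) * (p : ℝ) ^ (1 / Real.log y) ≤
      Real.exp (4 * g / Real.log y * (Real.log p / p)) * (1 - (r p : ℝ) / p)⁻¹ := by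
    intro p hp
    have h1 := term_nonneg hz hr hp
    have h2 := term_le hz hr hp
    have hpp := PP_prime r z y p hp
    unfold PP at hp
    rw [mem_filter, mem_Ioc] at hp
    obtain ⟨h, hh⟩ : ∃ h : ℝ, h = (1 - (r p : ℝ) / p)⁻¹ - 1 := ⟨_, rfl⟩
    have hh' : (1 - (r p : ℝ) / p)⁻¹ = 1 + h := by rw [hh]; ring
    rw [← hh] at h1 h2 ⊢
    rw [hh']
    have hp0 : (0 : ℝ) < p := by exact_mod_cast hpp.pos
    have hlp : 0 ≤ Real.log p := Real.log_nonneg (by exact_mod_cast hpp.one_lt.le)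
    have hlpy : Real.log p ≤ Real.log y := Real.log_le_log hp0 (by exact_mod_cast hp.1.2)
    have hu0 : 0 ≤ Real.log p / Real.log y := by positivity
    have hu1 : Real.log p / Real.log y ≤ 1 := (div_le_one hly).2 hlpy
    have h3 : (p : ℝ) ^ (1 / Real.log y) = Real.exp (Real.log p / Real.log y) := by
      rw [Real.rpow_def_of_pos hp0]
      congr 1
      ring
    have h4 : Real.exp (Real.log p / Real.log y) - 1 ≤ 2 * (Real.log p / Real.log y) := by
      have := Real.abs_exp_sub_one_le (x := Real.log p / Real.log y) (by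
        rw [abs_of_nonneg hu0]; exact hu1)
      rw [abs_of_nonneg hu0] at this
      exact (le_abs_self _).trans this
    rw [h3]
    have h5 : h * (Real.exp (Real.log p / Real.log y) - 1) ≤
        4 * g / Real.log y * (Real.log p / p) := by
      have h6 : 0 ≤ Real.exp (Real.log p / Real.log y) - 1 := by
        have := Real.one_le_exp hu0
        linarith
      calc h * (Real.exp (Real.log p / Real.log y) - 1)
          ≤ (2 * g / p) * (2 * (Real.log p / Real.log y)) := by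
            refine mul_le_mul h2 h4 h6 (by positivity)
        _ = 4 * g / Real.log y * (Real.log p / p) := by
            field_simp
            ring
    have h7 : 1 + h * (Real.exp (Real.log p / Real.log y) - 1) ≤
        Real.exp (4 * g / Real.log y * (Real.log p / p)) := by
      have := Real.add_one_le_exp (4 * g / Real.log y * (Real.log p / p))
      linarith
    have h8 : 1 + h * Real.exp (Real.log p / Real.log y) ≤
        (1 + h * (Real.exp (Real.log p / Real.log y) - 1)) * (1 + h) := by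
      have h6 : 0 ≤ Real.exp (Real.log p / Real.log y) - 1 := by
        have := Real.one_le_exp hu0
        linarith
      nlinarith [mul_nonneg (mul_nonneg h1 h1) h6]
    exact h8.trans (mul_le_mul_of_nonneg_right h7 (by linarith))
  have hnn : ∀ p ∈ PP r z y, 0 ≤ 1 + ((1 - (r p : ℝ) / p)⁻¹ - 1) * (p : ℝ) ^ (1 / Real.log y) := by
    intro p hp
    have h1 := term_nonneg hz hr hp
    positivity
  refine (prod_le_prod hnn hpt).trans ?_
  rw [prod_mul_distrib, ← Real.exp_sum]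
  have hG : 0 ≤ ∏ p ∈ PP r z y, (1 - (r p : ℝ) / p)⁻¹ :=
    prod_nonneg fun p hp => (inv_pos.2 (den_pos hz hr hp)).le
  refine mul_le_mul_of_nonneg_right (Real.exp_le_exp.2 ?_) hG
  rw [← mul_sum]
  have h1 : ∑ p ∈ PP r z y, Real.log p / p ≤ ∑ p ∈ (Icc 1 y).filter Nat.Prime, Real.log p / p := by
    refine sum_le_sum_of_subset_of_nonneg ?_ ?_
    · intro p hp
      unfold PP at hp
      rw [mem_filter, mem_Ioc] at hp
      rw [mem_filter, mem_Icc]
      exact ⟨⟨hp.2.1.one_lt.le, hp.1.2⟩, hp.2.1⟩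
    · intro p hp _
      rw [mem_filter, mem_Icc] at hp
      have : 0 ≤ Real.log p := Real.log_nonneg (by exact_mod_cast hp.1.1)
      positivity
  have h2 : ∑ p ∈ (Icc 1 y).filter Nat.Prime, Real.log p / p ≤ Real.log y + C := by
    have := (abs_le.1 (hC y (by omega))).2
    linarith
  have h3 : 4 * g / Real.log y * (Real.log y + C) ≤ 4 * g * (1 + C / Real.log 2) := by
    have h4 : 4 * g / Real.log y * (Real.log y + C) = 4 * g * (1 + C / Real.log y) := by
      field_simp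
    rw [h4]
    have h5 : C / Real.log y ≤ C / Real.log 2 := div_le_div_of_nonneg_left hC0 hl2 hl2y
    have h6 : (0 : ℝ) ≤ 4 * g := by positivity
    exact mul_le_mul_of_nonneg_left (by linarith) h6
  refine le_trans (mul_le_mul_of_nonneg_left (h1.trans h2) (by positivity)) h3

/-- the product over an interval of primes -/
theorem prod_int_le (g : ℕ) : ∃ C : ℝ, 0 ≤ C ∧ ∀ (r : ℕ → ℕ) (z a b : ℕ) (t : ℝ), 2 * g + 2 ≤ z →
    z ≤ a → a ≤ b → (∀ p : ℕ, p.Prime → r p ≤ g) → 1 ≤ t → Real.log b ≤ t * Real.log a →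
    ∏ p ∈ PP r a b, (1 - (r p : ℝ) / p)⁻¹ ≤ Real.exp (2 * g * (Real.log t + C)) := by
  obtain ⟨C, hC0, hC⟩ := Pool.Agent.Helper923.HMertens.mertens_ratio
  have hl2 : (0 : ℝ) < Real.log 2 := Real.log_pos (by norm_num)
  refine ⟨C / Real.log 2, by positivity, fun r z a b t hz hza hab hr ht hlog => ?_⟩
  have hza' : 2 * g + 2 ≤ a := hz.trans hza
  have hla : 0 < Real.log a := Real.log_pos (by exact_mod_cast (by omega : 1 < a))
  have hlb : 0 < Real.log b := Real.log_pos (by exact_mod_cast (by omega : 1 < b))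
  have hl2a : Real.log 2 ≤ Real.log a :=
    Real.log_le_log (by norm_num) (by exact_mod_cast (by omega : 2 ≤ a))
  have hpt : ∀ p ∈ PP r a b, (1 - (r p : ℝ) / p)⁻¹ ≤ Real.exp (2 * g * (1 / p)) := by
    intro p hp
    have h1 := term_le hza' hr hp
    have h2 := Real.add_one_le_exp (2 * g * (1 / (p : ℝ)))
    have h3 : 2 * (g : ℝ) / p = 2 * g * (1 / p) := by ring
    linarith
  refine (prod_le_prod (fun p hp => (inv_pos.2 (den_pos hza' hr hp)).le) hpt).trans ?_
  rw [← Real.exp_sum, ← mul_sum]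
  refine Real.exp_le_exp.2 (mul_le_mul_of_nonneg_left ?_ (by positivity))
  have h1 : ∑ p ∈ PP r a b, (1 : ℝ) / p ≤ ∑ p ∈ (Ioc a b).filter Nat.Prime, (1 : ℝ) / p := by
    refine sum_le_sum_of_subset_of_nonneg ?_ fun p _ _ => by positivity
    intro p hp
    unfold PP at hp
    rw [mem_filter] at hp ⊢
    exact ⟨hp.1, hp.2.1⟩
  have h2 := (abs_le.1 (hC a b (by omega) hab)).2
  have h3 : C / Real.log a ≤ C / Real.log 2 := div_le_div_of_nonneg_left hC0 hl2 hl2a
  have h4 : Real.log (Real.log b / Real.log a) ≤ Real.log t :=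
    Real.log_le_log (by positivity) ((div_le_iff₀ hla).2 hlog)
  linarith

/-- the lower bound of the Selberg sum -/
theorem low (g : ℕ) : ∃ c : ℝ, 0 < c ∧ ∀ (r : ℕ → ℕ) (z R : ℕ) (hz : 2 * g + 2 ≤ z) (_ : z ≤ R)
    (hr : ∀ p : ℕ, p.Prime → r p ≤ g), (PR r z R)⁻¹ ≤ c * selS (sv g r z R hz hr) R := by
  obtain ⟨K, hK0, hK⟩ := shift_le g
  obtain ⟨C, hC0, hC⟩ := prod_int_le g
  obtain ⟨s, hs⟩ := exists_nat_ge (K + 1)
  have hs1 : 1 ≤ s := by
    have : (1 : ℝ) ≤ s := by linarith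
    exact_mod_cast this
  have hs1' : (1 : ℝ) ≤ s := by exact_mod_cast hs1
  refine ⟨2 * Real.exp (2 * g * (Real.log (2 * s) + C)), by positivity, fun r z R hz hzR hr => ?_⟩
  have hR1 : 1 ≤ R := by omega
  have hlz : 0 < Real.log z := Real.log_pos (by exact_mod_cast (by omega : 1 < z))
  have hS1 := one_le_selS hz hr hR1
  rw [← PR_eq]
  by_cases hcase : R < z ^ s
  · have h1 : Real.log R ≤ 2 * s * Real.log z := by
      have h2 : Real.log R ≤ Real.log ((z : ℝ) ^ s) :=
        Real.log_le_log (by exact_mod_cast hR1) (by exact_mod_cast hcase.le)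
      rw [Real.log_pow] at h2
      nlinarith [mul_nonneg (by linarith : (0 : ℝ) ≤ s) hlz.le]
    have h2 := hC r z z R (2 * s) hz le_rfl hzR hr (by linarith) h1
    have h3 := Real.exp_pos (2 * g * (Real.log (2 * s) + C))
    nlinarith
  · rw [not_lt] at hcase
    obtain ⟨y, hyd⟩ : ∃ y : ℕ, y = Nat.findGreatest (fun y => y ^ s ≤ R) R := ⟨_, rfl⟩
    have hyz : z ≤ y := by
      rw [hyd]
      exact Nat.le_findGreatest hzR hcase
    have hys : y ^ s ≤ R := by
      rw [hyd]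
      exact Nat.findGreatest_spec (P := fun y => y ^ s ≤ R) hzR hcase
    have hyR : y ≤ R := by
      rw [hyd]
      exact Nat.findGreatest_le R
    have hy1 : R < (y + 1) ^ s := by
      by_cases h : y + 1 ≤ R
      · by_contra h2
        rw [not_lt] at h2
        exact Nat.findGreatest_is_greatest (P := fun y => y ^ s ≤ R) (n := R) (k := y + 1)
          (by omega) h h2
      · calc R < y + 1 := by omega
          _ ≤ (y + 1) ^ s := Nat.le_self_pow (by omega) _
    have hy2 : 2 ≤ y := by omega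
    have hly : 0 < Real.log y := Real.log_pos (by exact_mod_cast (by omega : 1 < y))
    have hRp : (0 : ℝ) < R := by exact_mod_cast hR1
    have h1 : Real.log R ≤ 2 * s * Real.log y := by
      have h3 : R ≤ y ^ (2 * s) := by
        calc R ≤ (y + 1) ^ s := hy1.le
          _ ≤ (y ^ 2) ^ s := Nat.pow_le_pow_left (by nlinarith) _
          _ = y ^ (2 * s) := by rw [pow_mul]
      have h2 : Real.log R ≤ Real.log ((y : ℝ) ^ (2 * s)) :=
        Real.log_le_log hRp (by exact_mod_cast h3)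
      rw [Real.log_pow] at h2
      push_cast at h2
      exact h2
    have h2 := hC r z y R (2 * s) hz hyz hyR hr (by linarith) h1
    -- the split of the product
    have hsplit : ∏ p ∈ PP r z R, (1 - (r p : ℝ) / p)⁻¹ =
        (∏ p ∈ PP r z y, (1 - (r p : ℝ) / p)⁻¹) * ∏ p ∈ PP r y R, (1 - (r p : ℝ) / p)⁻¹ := by
      classical
      rw [← prod_union]
      · congr 1
        ext p
        unfold PP
        simp only [mem_union, mem_filter, mem_Ioc]
        constructor
        · rintro ⟨⟨h3, h4⟩, h5⟩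
          by_cases h6 : p ≤ y
          · exact Or.inl ⟨⟨h3, h6⟩, h5⟩
          · exact Or.inr ⟨⟨by omega, h4⟩, h5⟩
        · rintro (⟨⟨h3, h4⟩, h5⟩ | ⟨⟨h3, h4⟩, h5⟩)
          · exact ⟨⟨h3, by omega⟩, h5⟩
          · exact ⟨⟨by omega, h4⟩, h5⟩
      · rw [disjoint_left]
        intro p hp hp2
        unfold PP at hp hp2
        rw [mem_filter, mem_Ioc] at hp hp2
        omega
    have hε : (0 : ℝ) < 1 / Real.log y := by positivity
    have h3 := selS_ge hz hr hyR hR1 hε
    have h4 := hK r z y hz hy2 hr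
    have hG : 0 < ∏ p ∈ PP r z y, (1 - (r p : ℝ) / p)⁻¹ :=
      prod_pos fun p hp => inv_pos.2 (den_pos hz hr hp)
    have h5 : (R : ℝ) ^ (-(1 / Real.log y)) ≤ Real.exp (-s) := by
      rw [Real.rpow_def_of_pos hRp]
      refine Real.exp_le_exp.2 ?_
      have h6 : s * Real.log y ≤ Real.log R := by
        have : Real.log ((y : ℝ) ^ s) ≤ Real.log R :=
          Real.log_le_log (by positivity) (by exact_mod_cast hys)
        rwa [Real.log_pow] at this
      have h7 : Real.log R * -(1 / Real.log y) = -(Real.log R / Real.log y) := by ring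
      rw [h7, neg_le_neg_iff, le_div_iff₀ hly]
      exact h6
    obtain ⟨G, hGd⟩ : ∃ G : ℝ, G = ∏ p ∈ PP r z y, (1 - (r p : ℝ) / p)⁻¹ := ⟨_, rfl⟩
    rw [← hGd] at h3 h4 hG hsplit
    have hE0 : 0 ≤ ∏ p ∈ PP r z y,
        (1 + ((1 - (r p : ℝ) / p)⁻¹ - 1) * (p : ℝ) ^ (1 / Real.log y)) := by
      refine prod_nonneg fun p hp => ?_
      have := term_nonneg hz hr hp
      positivity
    have h8 : (R : ℝ) ^ (-(1 / Real.log y)) * ∏ p ∈ PP r z y,
        (1 + ((1 - (r p : ℝ) / p)⁻¹ - 1) * (p : ℝ) ^ (1 / Real.log y)) ≤ G / 2 := by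
      calc (R : ℝ) ^ (-(1 / Real.log y)) * ∏ p ∈ PP r z y,
        (1 + ((1 - (r p : ℝ) / p)⁻¹ - 1) * (p : ℝ) ^ (1 / Real.log y))
          ≤ Real.exp (-s) * (Real.exp K * G) := by
            refine mul_le_mul h5 h4 hE0 (Real.exp_pos _).le
        _ = Real.exp (K - s) * G := by
            rw [← mul_assoc, ← Real.exp_add]
            congr 2
            ring
        _ ≤ Real.exp (-1) * G := by
            refine mul_le_mul_of_nonneg_right (Real.exp_le_exp.2 (by linarith)) hG.le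
        _ ≤ (1 / 2) * G := by
            refine mul_le_mul_of_nonneg_right ?_ hG.le
            rw [Real.exp_neg, one_div, inv_le_inv₀ (Real.exp_pos _) (by norm_num)]
            have := Real.add_one_le_exp (1 : ℝ)
            linarith
        _ = G / 2 := by ring
    have h9 : G ≤ 2 * selS (sv g r z R hz hr) R := by linarith
    rw [hsplit]
    calc G * ∏ p ∈ PP r y R, (1 - (r p : ℝ) / p)⁻¹
        ≤ (2 * selS (sv g r z R hz hr) R) * Real.exp (2 * g * (Real.log (2 * s) + C)) := by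
          refine mul_le_mul h9 h2 ?_ (by linarith)
          exact prod_nonneg fun p hp => (inv_pos.2 (den_pos (hz.trans hyz) hr hp)).le
      _ = 2 * Real.exp (2 * g * (Real.log (2 * s) + C)) * selS (sv g r z R hz hr) R := by ring

/-- (SEL) -/
theorem sel : S_SEL := by
  intro g
  obtain ⟨c, hc, hlow⟩ := low g
  refine ⟨c, hc, fun r z R hz hzR hr => ?_⟩
  have hR1 : 1 ≤ R := by omega
  refine ⟨lam (R := R) hz hr, lam_one hz hr hR1, lam_le hz hr hR1, ?_, ?_, ?_⟩
  · intro d hd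
    have h1 : d ∣ ∏ p ∈ PP r z R, p ∧ d ≤ R := by
      by_contra h
      exact hd (lam_zero hz hr h)
    have h2 := (dvd_iff _ (PP_prime r z R) d).1 h1.1
    refine ⟨Nat.pos_of_ne_zero h2.1.ne_zero, h1.2, h2.1, fun p hp hpd => ?_⟩
    have h3 := h2.2 p hp hpd
    unfold PP at h3
    rw [mem_filter, mem_Ioc] at h3
    exact h3.1.1
  · rw [qfr_eq hz hr hR1]
    have h1 := selS_le hz hr (R := R)
    have h2 := one_le_selS hz hr hR1
    have h3 : 0 < (PR r z R)⁻¹ := lt_of_lt_of_le (by linarith) h1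
    have h4 : 0 < PR r z R := inv_pos.1 h3
    rw [le_inv_comm₀ h4 (by linarith)]
    exact h1
  · rw [qfr_eq hz hr hR1]
    have h1 := selS_le hz hr (R := R)
    have h2 := one_le_selS hz hr hR1
    have h3 : 0 < (PR r z R)⁻¹ := lt_of_lt_of_le (by linarith) h1
    have h4 : 0 < PR r z R := inv_pos.1 h3
    have h5 := hlow r z R hz hzR hr
    have h6 : 1 ≤ c * selS (sv g r z R hz hr) R * PR r z R := by
      have := mul_le_mul_of_nonneg_right h5 h4.le
      rwa [inv_mul_cancel₀ h4.ne'] at this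
    rw [inv_le_iff_one_le_mul₀ (by linarith)]
    linarith

end Pool.Agent.Y328.RSZ
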