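import Pool.Agent.Y677.RSZ.Stm
import Pool.Agent.Helper923.PPS.Selberg

/-! # Project RSZ, task SEL, part 1: the weights and their quadratic form -/

set_option autoImplicit false

namespace Pool.Agent.Y328.RSZ

open Finset
open Pool.Agent.Helper923.PPS
open Pool.Agent.Y677.RSZ

/-- The bound which gives that the weights are at most one. -/
theorem key (s : BoundingSieve) (R : ℝ) {d : ℕ} (hd : d ∣ s.prodPrimes) :
    (s.nu d)⁻¹ * ∑ l ∈ (Nat.divisors s.prodPrimes).filter (fun l : ℕ => d ∣ l ∧ (l : ℝ) ≤ R),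
      s.selbergTerms l ≤ selS s R := by
  classical
  have hP := s.prodPrimes_squarefree
  have hP0 : s.prodPrimes ≠ 0 := hP.ne_zero
  have hd0 : d ≠ 0 := fun h => hP0 (Nat.eq_zero_of_zero_dvd (h ▸ hd))
  obtain ⟨F, hF⟩ : ∃ F : Finset ℕ, F = (Nat.divisors s.prodPrimes).filter
    (fun l : ℕ => d ∣ l ∧ (l : ℝ) ≤ R) := ⟨_, rfl⟩
  rw [← hF]
  have hFm : ∀ l ∈ F, l ∣ s.prodPrimes ∧ d ∣ l ∧ (l : ℝ) ≤ R := by
    intro l hl
    rw [hF, mem_filter, Nat.mem_divisors] at hl
    exact ⟨hl.1.1, hl.2.1, hl.2.2⟩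
  have hcop : ∀ l ∈ F, Nat.Coprime (l / d) d := by
    intro l hl
    obtain ⟨h1, h2, -⟩ := hFm l hl
    have h3 : Squarefree (l / d * d) := by
      rw [Nat.div_mul_cancel h2]
      exact hP.squarefree_of_dvd h1
    exact Nat.coprime_of_squarefree_mul h3
  have hsum : (s.nu d)⁻¹ * s.selbergTerms d = ∑ e ∈ d.divisors, s.selbergTerms e := by
    have h := BoundingSieve.sum_divisors_selbergTerms_eq_selbergTerms_mul_nu_inv (s := s) hd
    rw [← sum_filter, Nat.divisors_filter_dvd_of_dvd hP0 hd] at h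
    rw [h, mul_comm]
  have h1 : (s.nu d)⁻¹ * ∑ l ∈ F, s.selbergTerms l =
      ∑ x ∈ F ×ˢ d.divisors, s.selbergTerms (x.2 * (x.1 / d)) := by
    rw [mul_sum, sum_product]
    refine sum_congr rfl fun l hl => ?_
    obtain ⟨h1, h2, -⟩ := hFm l hl
    have e1 : s.selbergTerms l = s.selbergTerms d * s.selbergTerms (l / d) := by
      rw [← BoundingSieve.selbergTerms_isMultiplicative.map_mul_of_coprime (hcop l hl).symm,
        Nat.mul_div_cancel' h2]
    rw [e1, ← mul_assoc, hsum, sum_mul]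
    refine sum_congr rfl fun e he => ?_
    rw [BoundingSieve.selbergTerms_isMultiplicative.map_mul_of_coprime]
    exact ((hcop l hl).symm).coprime_dvd_left (Nat.dvd_of_mem_divisors he)
  have hinj : Set.InjOn (fun x : ℕ × ℕ => x.2 * (x.1 / d)) (F ×ˢ d.divisors : Finset (ℕ × ℕ)) := by
    rintro ⟨l, e⟩ hx ⟨l', e'⟩ hx' h
    rw [mem_coe, mem_product] at hx hx'
    simp only at hx hx' h
    have g1 : Nat.gcd (e * (l / d)) d = e := by
      rw [Nat.Coprime.gcd_mul_right_cancel e (hcop l hx.1)]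
      exact Nat.gcd_eq_left (Nat.dvd_of_mem_divisors hx.2)
    have g2 : Nat.gcd (e' * (l' / d)) d = e' := by
      rw [Nat.Coprime.gcd_mul_right_cancel e' (hcop l' hx'.1)]
      exact Nat.gcd_eq_left (Nat.dvd_of_mem_divisors hx'.2)
    have g3 : e = e' := by rw [← g1, ← g2, h]
    subst g3
    have he0 : 0 < e := Nat.pos_of_ne_zero fun h0 => by
      have := Nat.dvd_of_mem_divisors hx.2
      rw [h0] at this
      exact hd0 (Nat.eq_zero_of_zero_dvd this)
    have g4 : l / d = l' / d := Nat.eq_of_mul_eq_mul_left he0 h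
    have g5 : l = l' := by
      rw [← Nat.div_mul_cancel (hFm l hx.1).2.1, ← Nat.div_mul_cancel (hFm l' hx'.1).2.1, g4]
    rw [g5]
  rw [h1, ← sum_image (g := fun x : ℕ × ℕ => x.2 * (x.1 / d)) (f := fun a => s.selbergTerms a) hinj]
  unfold selS
  refine sum_le_sum_of_subset_of_nonneg ?_ ?_
  · intro a ha
    rw [mem_image] at ha
    obtain ⟨⟨l, e⟩, hx, rfl⟩ := ha
    rw [mem_product] at hx
    obtain ⟨h1, h2, h3⟩ := hFm l hx.1
    have h4 : e * (l / d) ∣ l := by
      have : e * (l / d) ∣ d * (l / d) := Nat.mul_dvd_mul_right (Nat.dvd_of_mem_divisors hx.2) _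
      rwa [Nat.mul_div_cancel' h2] at this
    have hl0 : l ≠ 0 := fun h => hP0 (Nat.eq_zero_of_zero_dvd (h ▸ h1))
    rw [mem_filter, Nat.mem_divisors]
    refine ⟨⟨h4.trans h1, hP0⟩, le_trans ?_ h3⟩
    exact_mod_cast Nat.le_of_dvd (Nat.pos_of_ne_zero hl0) h4
  · intro a ha _
    rw [mem_filter, Nat.mem_divisors] at ha
    exact (BoundingSieve.selbergTerms_pos ha.1.1).le

theorem sqf (P : Finset ℕ) (hP : ∀ p ∈ P, p.Prime) : Squarefree (∏ p ∈ P, p) := by
  classical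
  induction P using Finset.induction_on with
  | empty => simp
  | insert a s ha ih =>
    rw [prod_insert ha]
    have hap := hP a (mem_insert_self a s)
    have hs : ∀ p ∈ s, p.Prime := fun p hp => hP p (mem_insert_of_mem hp)
    rw [Nat.squarefree_mul_iff]
    refine ⟨?_, hap.squarefree, ih hs⟩
    rw [Nat.Prime.coprime_iff_not_dvd hap]
    intro h
    obtain ⟨q, hq, haq⟩ := (Prime.dvd_finsetProd_iff hap.prime _).1 h
    rw [(Nat.prime_dvd_prime_iff_eq hap (hs q hq)).1 haq] at ha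
    exact ha hq

theorem dvd_iff (P : Finset ℕ) (hP : ∀ p ∈ P, p.Prime) (d : ℕ) :
    d ∣ ∏ p ∈ P, p ↔ Squarefree d ∧ ∀ p : ℕ, p.Prime → p ∣ d → p ∈ P := by
  constructor
  · intro h
    refine ⟨(sqf P hP).squarefree_of_dvd h, fun p hp hpd => ?_⟩
    obtain ⟨q, hq, hpq⟩ := (Prime.dvd_finsetProd_iff hp.prime _).1 (hpd.trans h)
    rwa [(Nat.prime_dvd_prime_iff_eq hp (hP q hq)).1 hpq]
  · rintro ⟨h1, h2⟩
    rw [← Nat.prod_primeFactors_of_squarefree h1]
    refine prod_dvd_prod_of_subset _ _ _ fun p hp => ?_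
    exact h2 p (Nat.prime_of_mem_primeFactors hp) (Nat.dvd_of_mem_primeFactors hp)

/-- the primes in `(z, R]` with a positive density -/
def PP (r : ℕ → ℕ) (z R : ℕ) : Finset ℕ := (Ioc z R).filter (fun p => p.Prime ∧ 0 < r p)

theorem PP_prime (r : ℕ → ℕ) (z R : ℕ) : ∀ p ∈ PP r z R, p.Prime := fun _ hp =>
  (mem_filter.1 hp).2.1

theorem PP_sub {r : ℕ → ℕ} {z y R : ℕ} (h : y ≤ R) : PP r z y ⊆ PP r z R := fun p hp => by
  unfold PP at hp ⊢
  rw [mem_filter, mem_Ioc] at hp ⊢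
  exact ⟨⟨hp.1.1, hp.1.2.trans h⟩, hp.2⟩

/-- the densities -/
noncomputable def nuR (r : ℕ → ℕ) : ArithmeticFunction ℝ :=
  ArithmeticFunction.prodPrimeFactors (fun p => (r p : ℝ) / p)

theorem nuR_apply {r : ℕ → ℕ} {d : ℕ} (hd : d ≠ 0) :
    nuR r d = ∏ p ∈ d.primeFactors, (r p : ℝ) / p := by
  unfold nuR
  rw [ArithmeticFunction.prodPrimeFactors_apply hd]

theorem nuR_prime {r : ℕ → ℕ} {p : ℕ} (hp : p.Prime) : nuR r p = (r p : ℝ) / p := by
  rw [nuR_apply hp.ne_zero, hp.primeFactors, prod_singleton]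

theorem nuR_sq {r : ℕ → ℕ} {d : ℕ} (hd : Squarefree d) : nuR r d = (rs r d : ℝ) / d := by
  rw [nuR_apply hd.ne_zero, prod_div_distrib]
  congr 1
  · unfold rs
    push_cast
    rfl
  · conv_rhs => rw [← Nat.prod_primeFactors_of_squarefree hd]
    push_cast
    rfl

/-- the sieve -/
noncomputable def sv (g : ℕ) (r : ℕ → ℕ) (z R : ℕ) (hz : 2 * g + 2 ≤ z)
    (hr : ∀ p : ℕ, p.Prime → r p ≤ g) : BoundingSieve where
  support := ∅
  prodPrimes := ∏ p ∈ PP r z R, p
  prodPrimes_squarefree := sqf _ (PP_prime r z R)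
  weights := fun _ => 0
  weights_nonneg := fun _ => le_rfl
  totalMass := 0
  nu := nuR r
  nu_mult := ArithmeticFunction.IsMultiplicative.prodPrimeFactors _
  nu_pos_of_prime := fun p hp hpd => by
    have h := ((dvd_iff _ (PP_prime r z R) p).1 hpd).2 p hp dvd_rfl
    unfold PP at h
    rw [mem_filter] at h
    rw [nuR_prime hp]
    have h1 : (0 : ℝ) < p := by exact_mod_cast hp.pos
    have h2 : (0 : ℝ) < r p := by exact_mod_cast h.2.2
    positivity
  nu_lt_one_of_prime := fun p hp hpd => by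
    have h := ((dvd_iff _ (PP_prime r z R) p).1 hpd).2 p hp dvd_rfl
    unfold PP at h
    rw [mem_filter, mem_Ioc] at h
    rw [nuR_prime hp]
    have h1 : (0 : ℝ) < p := by exact_mod_cast hp.pos
    rw [div_lt_one h1]
    have := hr p hp
    exact_mod_cast (by omega : r p < p)

section

variable {g : ℕ} {r : ℕ → ℕ} {z R : ℕ} (hz : 2 * g + 2 ≤ z) (hr : ∀ p : ℕ, p.Prime → r p ≤ g)

theorem sv_prod : (sv g r z R hz hr).prodPrimes = ∏ p ∈ PP r z R, p := rfl

theorem sv_nu : (sv g r z R hz hr).nu = nuR r := rfl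

/-- the weights -/
noncomputable def lam (d : ℕ) : ℝ := selW (sv g r z R hz hr) R d

theorem lam_one (hR : 1 ≤ R) : lam (R := R) hz hr 1 = 1 :=
  selW_one (sv g r z R hz hr) R (by exact_mod_cast hR)

theorem lam_zero {d : ℕ} (hd : ¬ (d ∣ ∏ p ∈ PP r z R, p ∧ d ≤ R)) : lam (R := R) hz hr d = 0 := by
  rw [not_and_or] at hd
  rcases hd with hd | hd
  · unfold lam selW
    rw [sum_eq_zero, mul_zero]
    intro l hl
    rw [mem_filter, Nat.mem_divisors] at hl
    exact absurd (hl.2.1.trans hl.1.1) hd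
  · exact selW_eq_zero (sv g r z R hz hr) R (by exact_mod_cast not_le.1 hd)

theorem lam_le (hR : 1 ≤ R) (d : ℕ) : |lam (R := R) hz hr d| ≤ 1 := by
  by_cases hd : d ∣ (sv g r z R hz hr).prodPrimes
  · unfold lam selW
    have hS := selS_pos (sv g r z R hz hr) R (by exact_mod_cast hR)
    have hnu : 0 < (sv g r z R hz hr).nu d := BoundingSieve.nu_pos_of_dvd_prodPrimes hd
    have h0 : 0 ≤ ∑ l ∈ (Nat.divisors (sv g r z R hz hr).prodPrimes).filter
        (fun l : ℕ => d ∣ l ∧ (l : ℝ) ≤ (R : ℝ)), (sv g r z R hz hr).selbergTerms l := by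
      refine sum_nonneg fun l hl => ?_
      rw [mem_filter, Nat.mem_divisors] at hl
      exact (BoundingSieve.selbergTerms_pos hl.1.1).le
    have hk := key (sv g r z R hz hr) R hd
    have hμ : |((ArithmeticFunction.moebius d : ℤ) : ℝ)| ≤ 1 := by
      have : |ArithmeticFunction.moebius d| ≤ 1 := ArithmeticFunction.abs_moebius_le_one
      exact_mod_cast this
    rw [abs_mul, abs_mul, abs_mul, abs_of_nonneg h0, abs_of_pos (inv_pos.mpr hnu),
      abs_of_pos (inv_pos.mpr hS)]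
    obtain ⟨T0, hT0⟩ : ∃ T0 : ℝ, T0 = ∑ l ∈ (Nat.divisors (sv g r z R hz hr).prodPrimes).filter
        (fun l : ℕ => d ∣ l ∧ (l : ℝ) ≤ (R : ℝ)), (sv g r z R hz hr).selbergTerms l := ⟨_, rfl⟩
    rw [← hT0] at h0 hk ⊢
    calc ((sv g r z R hz hr).nu d)⁻¹ * |((ArithmeticFunction.moebius d : ℤ) : ℝ)| *
          (selS (sv g r z R hz hr) R)⁻¹ * T0
        = |((ArithmeticFunction.moebius d : ℤ) : ℝ)| * ((selS (sv g r z R hz hr) R)⁻¹ *
          (((sv g r z R hz hr).nu d)⁻¹ * T0)) := by ring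
      _ ≤ 1 * ((selS (sv g r z R hz hr) R)⁻¹ * selS (sv g r z R hz hr) R) := by gcongr
      _ = 1 := by rw [inv_mul_cancel₀ hS.ne', one_mul]
  · rw [lam_zero hz hr (fun h => hd h.1), abs_zero]
    exact zero_le_one

theorem qfr_eq (hR : 1 ≤ R) :
    qfr r R (lam (R := R) hz hr) = (selS (sv g r z R hz hr) R)⁻¹ := by
  classical
  have h := mainSum_selW (sv g r z R hz hr) R (by exact_mod_cast hR)
  rw [BoundingSieve.mainSum_lambdaSquared_eq_sum_sum_mul] at h
  rw [← h]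
  obtain ⟨D, hD⟩ : ∃ D : Finset ℕ, D = (Nat.divisors (∏ p ∈ PP r z R, p)).filter (fun d => d ≤ R) :=
    ⟨_, rfl⟩
  have hP0 : ∏ p ∈ PP r z R, p ≠ 0 := (sqf _ (PP_prime r z R)).ne_zero
  have hDm : ∀ d, d ∈ D ↔ d ∣ ∏ p ∈ PP r z R, p ∧ d ≤ R := by
    intro d
    rw [hD, mem_filter, Nat.mem_divisors]
    tauto
  have hl0 : ∀ d, d ∉ D → lam (R := R) hz hr d = 0 := fun d hd =>
    lam_zero hz hr (fun h => hd ((hDm d).2 h))
  have hD1 : D ⊆ Icc 1 R := by
    intro d hd
    have hd' := (hDm d).1 hd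
    rw [mem_Icc]
    exact ⟨Nat.pos_of_ne_zero fun h => hP0 (Nat.eq_zero_of_zero_dvd (h ▸ hd'.1)), hd'.2⟩
  have hD2 : D ⊆ Nat.divisors (sv g r z R hz hr).prodPrimes := by
    rw [hD]
    exact filter_subset _ _
  have e1 : qfr r R (lam (R := R) hz hr) = ∑ d ∈ D, ∑ e ∈ D, lam (R := R) hz hr d *
      lam (R := R) hz hr e * ((rs r (Nat.lcm d e) : ℝ) / (Nat.lcm d e : ℕ)) := by
    unfold qfr
    rw [← sum_subset hD1]
    · refine sum_congr rfl fun d _ => ?_
      rw [← sum_subset hD1]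
      intro e _ he
      rw [hl0 e he, mul_zero, zero_mul]
    · intro d _ hd
      refine sum_eq_zero fun e _ => ?_
      rw [hl0 d hd, zero_mul, zero_mul]
  have e2 : ∑ d1 ∈ Nat.divisors (sv g r z R hz hr).prodPrimes,
      ∑ d2 ∈ Nat.divisors (sv g r z R hz hr).prodPrimes,
        (sv g r z R hz hr).nu d1 * selW (sv g r z R hz hr) R d1 * (sv g r z R hz hr).nu d2 *
          selW (sv g r z R hz hr) R d2 * ((sv g r z R hz hr).nu (d1.gcd d2))⁻¹ =
      ∑ d1 ∈ D, ∑ d2 ∈ D,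
        (sv g r z R hz hr).nu d1 * selW (sv g r z R hz hr) R d1 * (sv g r z R hz hr).nu d2 *
          selW (sv g r z R hz hr) R d2 * ((sv g r z R hz hr).nu (d1.gcd d2))⁻¹ := by
    rw [← sum_subset hD2]
    · refine sum_congr rfl fun d _ => ?_
      rw [← sum_subset hD2]
      intro e _ he
      have h1 : selW (sv g r z R hz hr) R e = 0 := hl0 e he
      rw [h1]
      ring
    · intro d _ hd
      refine sum_eq_zero fun e _ => ?_
      have h1 : selW (sv g r z R hz hr) R d = 0 := hl0 d hd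
      rw [h1]
      ring
  rw [e1, e2]
  refine sum_congr rfl fun a ha => sum_congr rfl fun b hb => ?_
  have ha' := (hDm a).1 ha
  have hb' := (hDm b).1 hb
  have hlcm : a.lcm b ∣ ∏ p ∈ PP r z R, p := Nat.lcm_dvd ha'.1 hb'.1
  have hsq : Squarefree (a.lcm b) := (sqf _ (PP_prime r z R)).squarefree_of_dvd hlcm
  have hgcd : a.gcd b ∣ (sv g r z R hz hr).prodPrimes := (Nat.gcd_dvd_left a b).trans ha'.1
  have hg := (BoundingSieve.nu_pos_of_dvd_prodPrimes (s := sv g r z R hz hr) hgcd).ne'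
  have h2 : (sv g r z R hz hr).nu (a.lcm b) = (sv g r z R hz hr).nu a *
      (sv g r z R hz hr).nu b / (sv g r z R hz hr).nu (a.gcd b) := by
    rw [(sv g r z R hz hr).nu_mult.map_lcm hg]
  rw [← nuR_sq hsq, ← sv_nu hz hr (R := R), h2]
  unfold lam
  field_simp

/-- the terms -/
theorem sv_terms {p : ℕ} (hp : p ∈ PP r z R) :
    1 + (sv g r z R hz hr).selbergTerms p = (1 - (r p : ℝ) / p)⁻¹ := by
  have hpp := PP_prime r z R p hp
  unfold PP at hp
  rw [mem_filter, mem_Ioc] at hp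
  rw [BoundingSieve.selbergTerms_apply, sv_nu, hpp.primeFactors, prod_singleton, nuR_prime hpp]
  have h1 : (0 : ℝ) < p := by exact_mod_cast hpp.pos
  have h2 : (r p : ℝ) < p := by
    have := hr p hpp
    exact_mod_cast (by omega : r p < p)
  have h3 : 1 - (r p : ℝ) / p ≠ 0 := by
    have : (r p : ℝ) / p < 1 := (div_lt_one h1).2 h2
    linarith
  generalize (r p : ℝ) / p = x at h3 ⊢
  field_simp
  ring

/-- the sum of all the terms -/
theorem sum_terms {y : ℕ} (hy : y ≤ R) :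
    ∑ l ∈ Nat.divisors (∏ p ∈ PP r z y, p), (sv g r z R hz hr).selbergTerms l =
      ∏ p ∈ PP r z y, (1 - (r p : ℝ) / p)⁻¹ := by
  have h := (BoundingSieve.selbergTerms_isMultiplicative
    (s := sv g r z R hz hr)).prodPrimeFactors_one_add_of_squarefree (sqf _ (PP_prime r z y))
  rw [← h, Nat.primeFactors_prod (PP_prime r z y)]
  exact prod_congr rfl fun p hp => sv_terms hz hr (PP_sub hy hp)

theorem PR_eq : ∏ p ∈ PP r z R, (1 - (r p : ℝ) / p)⁻¹ = (PR r z R)⁻¹ := by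
  unfold PR PP
  rw [← prod_inv_distrib]
  refine prod_subset ?_ ?_
  · intro p hp
    rw [mem_filter] at hp ⊢
    exact ⟨hp.1, hp.2.1⟩
  · intro p hp hp2
    rw [mem_filter] at hp hp2
    have : r p = 0 := by
      by_contra h
      exact hp2 ⟨hp.1, hp.2, Nat.pos_of_ne_zero h⟩
    rw [this]
    simp

theorem selS_le : selS (sv g r z R hz hr) R ≤ (PR r z R)⁻¹ := by
  rw [← PR_eq, ← sum_terms hz hr le_rfl]
  unfold selS
  refine sum_le_sum_of_subset_of_nonneg (filter_subset _ _) fun l hl _ => ?_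
  exact (BoundingSieve.selbergTerms_pos (s := sv g r z R hz hr) (Nat.mem_divisors.1 hl).1).le

end

end Pool.Agent.Y328.RSZ
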